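import Pool.Agent.Lib.TNF.FR.Alg
import Pool.Agent.Lib.TNF.Iface2

/-!
# PROJECT TNF, package FR (helper10): the Frattini step
-/

set_option autoImplicit false

namespace TNF.FR

variable {ι : Type} [Fintype ι] [DecidableEq ι] {l : ℕ}

/-- Reduction modulo `l ^ k`. -/
def rd (ι : Type) [Fintype ι] [DecidableEq ι] (l k : ℕ) :
    Matrix ι ι (ZMod (l ^ (k + 1))) →+* Matrix ι ι (ZMod (l ^ k)) :=
  (ZMod.castHom (pow_dvd_pow l (Nat.le_succ k)) (ZMod (l ^ k))).mapMatrix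

/-- The kernels. -/
def Ker (S : ∀ k : ℕ, Set (Matrix ι ι (ZMod (l ^ k)))) (k : ℕ) :
    Set (Matrix ι ι (ZMod (l ^ (k + 1)))) := {A | A ∈ S (k + 1) ∧ rd ι l k A = 1}

omit [DecidableEq ι] in
lemma finM (hl : l.Prime) (k : ℕ) : Finite (Matrix ι ι (ZMod (l ^ k))) := by
  have : NeZero (l ^ k) := ⟨pow_ne_zero _ hl.ne_zero⟩
  unfold Matrix
  infer_instance

lemma img (S : ∀ k : ℕ, Set (Matrix ι ι (ZMod (l ^ k)))) (h : TNF.Twr ι l S) (k : ℕ) :
    rd ι l k '' S (k + 1) = S k := h.red k (k + 1) (pow_dvd_pow l (Nat.le_succ k))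

lemma cardS (hl : l.Prime) (S : ∀ k : ℕ, Set (Matrix ι ι (ZMod (l ^ k)))) (h : TNF.Twr ι l S)
    (k : ℕ) : (S (k + 1)).ncard = (S k).ncard * (Ker S k).ncard := by
  have := finM (ι := ι) hl k
  have := finM (ι := ι) hl (k + 1)
  have h1 := card_fib (rd ι l k : Matrix ι ι (ZMod (l ^ (k + 1))) →* Matrix ι ι (ZMod (l ^ k)))
    (S (k + 1)) (h.mul _) (h.inv _)
  have h2 : (rd ι l k : Matrix ι ι (ZMod (l ^ (k + 1))) →* Matrix ι ι (ZMod (l ^ k))) ''
    S (k + 1) = S k := img S h k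
  rw [h2] at h1
  exact h1

lemma pow_memS (S : ∀ k : ℕ, Set (Matrix ι ι (ZMod (l ^ k)))) (h : TNF.Twr ι l S) {k : ℕ}
    {A : Matrix ι ι (ZMod (l ^ k))} (hA : A ∈ S k) (n : ℕ) : A ^ n ∈ S k := by
  induction n with
  | zero => rw [pow_zero]; exact h.one k
  | succ n ih => rw [pow_succ]; exact h.mul k _ ih _ hA

lemma ent_zero {k : ℕ} {y : Matrix ι ι (ZMod (l ^ (k + 1 + 1)))}
    (h : rd ι l k (rd ι l (k + 1) y) = 1) (i j : ι) :
    ZMod.castHom (pow_dvd_pow l (show k ≤ k + 1 + 1 by omega)) (ZMod (l ^ k)) ((y - 1) i j) = 0 := by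
  have h1 : (ZMod.castHom (pow_dvd_pow l (Nat.le_succ k)) (ZMod (l ^ k))).comp
      (ZMod.castHom (pow_dvd_pow l (Nat.le_succ (k + 1))) (ZMod (l ^ (k + 1)))) =
      ZMod.castHom (pow_dvd_pow l (show k ≤ k + 1 + 1 by omega)) (ZMod (l ^ k)) :=
    Subsingleton.elim _ _
  rw [← h1, RingHom.comp_apply]
  have h2 : rd ι l k (rd ι l (k + 1) (y - 1)) = 0 := by
    rw [map_sub, map_sub, h, map_one, map_one, sub_self]
  exact congrFun (congrFun h2 i) j

lemma mono (hl : l.Prime) (S : ∀ k : ℕ, Set (Matrix ι ι (ZMod (l ^ k)))) (h : TNF.Twr ι l S)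
    {k : ℕ} (hk : 2 ≤ k) : (Ker S k).ncard ≤ (Ker S (k + 1)).ncard := by
  classical
  have hfin := finM (ι := ι) hl (k + 1 + 1)
  have h1 : ∀ x, ∃ y, x ∈ S (k + 1) → y ∈ S (k + 1 + 1) ∧ rd ι l (k + 1) y = x := by
    intro x
    by_cases hx : x ∈ S (k + 1)
    · rw [← img S h (k + 1)] at hx
      obtain ⟨y, hy, rfl⟩ := hx
      exact ⟨y, fun _ => ⟨hy, rfl⟩⟩
    · exact ⟨1, fun hx' => absurd hx' hx⟩
  choose g hg using h1
  have key : ∀ x ∈ Ker S k, (g x) ^ l = 1 + l • (g x - 1) ∧ ∀ i j,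
      ZMod.castHom (pow_dvd_pow l (show k ≤ k + 1 + 1 by omega)) (ZMod (l ^ k))
        ((g x - 1) i j) = 0 := by
    intro x hx
    obtain ⟨h2, h3⟩ := hg x hx.1
    have h4 : ∀ i j, ZMod.castHom (pow_dvd_pow l (show k ≤ k + 1 + 1 by omega)) (ZMod (l ^ k))
        ((g x - 1) i j) = 0 := by
      refine ent_zero ?_
      rw [h3]
      exact hx.2
    refine ⟨?_, h4⟩
    have h5 : (g x - 1) * (g x - 1) = 0 := by
      ext i j
      rw [Matrix.mul_apply]
      exact Finset.sum_eq_zero fun m _ => e1 hl _ (by omega) (h4 i m) (h4 m j)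
    have h6 := one_add_pow_sq h5 l
    rwa [add_sub_cancel] at h6
  refine Set.ncard_le_ncard_of_injOn (fun x => (g x) ^ l) ?_ ?_ (Set.toFinite _)
  · intro x hx
    obtain ⟨h2, h3⟩ := hg x hx.1
    refine ⟨pow_memS S h h2 l, ?_⟩
    obtain ⟨h4, h5⟩ := key x hx
    show rd ι l (k + 1) (g x ^ l) = 1
    rw [h4, map_add, map_one]
    have h6 : rd ι l (k + 1) (l • (g x - 1)) = 0 := by
      ext i j
      exact e2 hl _ (pow_dvd_pow l (Nat.le_succ (k + 1))) (h5 i j)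
    rw [h6, add_zero]
  · intro x hx x' hx' hxx'
    simp only at hxx'
    rw [(key x hx).1, (key x' hx').1] at hxx'
    have h2 : l • (g x - g x') = 0 := by
      have h3 : l • (g x - 1) - l • (g x' - 1) = 0 := sub_eq_zero.mpr (add_left_cancel hxx')
      rw [← smul_sub] at h3
      rwa [sub_sub_sub_cancel_right] at h3
    have h3 : rd ι l (k + 1) (g x - g x') = 0 := by
      ext i j
      exact e3 hl (pow_dvd_pow l (Nat.le_succ (k + 1))) (congrFun (congrFun h2 i) j)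
    rw [map_sub, (hg x hx.1).2, (hg x' hx'.1).2, sub_eq_zero] at h3
    exact h3

lemma bdd (hl : l.Prime) (S : ∀ k : ℕ, Set (Matrix ι ι (ZMod (l ^ k)))) (k : ℕ) :
    (Ker S k).ncard ≤ Nat.card (ι → ι → Fin l) := by
  have : NeZero (l ^ (k + 1)) := ⟨pow_ne_zero _ hl.ne_zero⟩
  have hlt : ∀ a : ZMod (l ^ (k + 1)), a.val / l ^ k < l := fun a =>
    Nat.div_lt_of_lt_mul (by rw [← pow_succ]; exact a.val_lt)
  rw [← Set.ncard_univ]
  refine Set.ncard_le_ncard_of_injOn (fun A i j => ⟨((A - 1) i j).val / l ^ k, hlt _⟩)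
    (fun _ _ => Set.mem_univ _) ?_ (Set.toFinite _)
  have hd : ∀ A ∈ Ker S k, ∀ i j, l ^ k ∣ ((A - 1) i j).val := by
    intro A hA i j
    have h1 : rd ι l k (A - 1) = 0 := by rw [map_sub, map_one, hA.2, sub_self]
    have h2 : ZMod.castHom (pow_dvd_pow l (Nat.le_succ k)) (ZMod (l ^ k)) ((A - 1) i j) = 0 :=
      congrFun (congrFun h1 i) j
    rw [← ZMod.natCast_zmod_val ((A - 1) i j), map_natCast, ZMod.natCast_eq_zero_iff] at h2
    exact h2
  intro A hA B hB hAB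
  have h3 : A - 1 = B - 1 := by
    ext i j
    have h4 : ((A - 1) i j).val / l ^ k = ((B - 1) i j).val / l ^ k :=
      congrArg Fin.val (congrFun (congrFun hAB i) j)
    refine ZMod.val_injective _ ?_
    rw [← Nat.div_mul_cancel (hd A hA i j), h4, Nat.div_mul_cancel (hd B hB i j)]
  exact sub_left_injective h3

/-- **FR.** -/
theorem tFR : TNF.StmtFR := by
  intro ι _ _ l hl S hS
  obtain ⟨k₀, hk₀, hc⟩ := const_of_bdd (a := fun k => (Ker S k).ncard)
    (fun k hk => mono hl S hS hk) (fun k => bdd hl S k)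
  refine ⟨k₀ + 1, fun S' hS' hle h1 => ?_⟩
  have hmono' : ∀ k, k₀ ≤ k → (Ker S' k₀).ncard ≤ (Ker S' k).ncard := by
    intro k hk
    induction k, hk using Nat.le_induction with
    | base => exact le_rfl
    | succ n hn ih => exact ih.trans (mono hl S' hS' (hk₀.trans hn))
  have hpos : 0 < (S k₀).ncard := by
    have := finM (ι := ι) hl k₀
    exact (Set.ncard_pos (Set.toFinite _)).mpr ⟨1, hS.one k₀⟩
  have hν : (Ker S k₀).ncard ≤ (Ker S' k₀).ncard := by
    have h2 := cardS hl S hS k₀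
    have h3 := cardS hl S' hS' k₀
    rw [h2, h3] at h1
    have h4 : (S' k₀).ncard * (Ker S' k₀).ncard ≤ (S k₀).ncard * (Ker S' k₀).ncard :=
      Nat.mul_le_mul_right _ (hle k₀)
    exact Nat.le_of_mul_le_mul_left (h1.trans h4) hpos
  intro k hk
  refine le_antisymm (hle k) ?_
  induction k, hk using Nat.le_induction with
  | base => exact h1
  | succ n hn ih =>
    rw [cardS hl S hS n, cardS hl S' hS' n]
    have h5 : (Ker S n).ncard = (Ker S k₀).ncard := hc n (by omega)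
    rw [h5]
    exact Nat.mul_le_mul ih (hν.trans (hmono' n (by omega)))

end TNF.FR
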