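import Mathlib

/-!
# PROJECT TNF, package FR (helper10): counting in towers of finite matrix groups
-/

set_option autoImplicit false

namespace TNF.FR

/-- The fibres of a homomorphism on a finite group. -/
theorem card_fib {M M' : Type} [Monoid M] [Monoid M'] [Finite M] [Finite M'] (φ : M →* M')
    (S : Set M) (hmul : ∀ A ∈ S, ∀ B ∈ S, A * B ∈ S)
    (hinv : ∀ A ∈ S, ∃ B ∈ S, A * B = 1 ∧ B * A = 1) :
    S.ncard = (φ '' S).ncard * {A | A ∈ S ∧ φ A = 1}.ncard := by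
  classical
  have := Fintype.ofFinite M
  have := Fintype.ofFinite M'
  have e1 : S.ncard = S.toFinset.card := Set.ncard_eq_toFinset_card' S
  have e2 : (φ '' S).ncard = (S.toFinset.image φ).card := by
    rw [Set.ncard_eq_toFinset_card', Set.toFinset_image]
  have e3 : {A | A ∈ S ∧ φ A = 1}.ncard = (S.toFinset.filter fun a => φ a = 1).card := by
    rw [Set.ncard_eq_toFinset_card']
    congr 1
    ext a
    simp
  rw [e1, e2, e3, Finset.card_eq_sum_card_image φ S.toFinset]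
  rw [Finset.sum_const_nat (m := (S.toFinset.filter fun a => φ a = 1).card)]
  intro b hb
  obtain ⟨a0, ha0, rfl⟩ := Finset.mem_image.mp hb
  rw [Set.mem_toFinset] at ha0
  obtain ⟨b0, hb0, h1, h2⟩ := hinv a0 ha0
  refine (Finset.card_nbij' (fun a => a * b0) (fun a => a * a0) ?_ ?_ ?_ ?_)
  · intro a ha
    simp only [Finset.coe_filter, Set.mem_toFinset, Set.mem_ofPred_eq] at ha ⊢
    refine ⟨hmul _ ha.1 _ hb0, ?_⟩
    rw [map_mul, ha.2, ← map_mul, h1, map_one]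
  · intro a ha
    simp only [Finset.coe_filter, Set.mem_toFinset, Set.mem_ofPred_eq] at ha ⊢
    refine ⟨hmul _ ha.1 _ ha0, ?_⟩
    rw [map_mul, ha.2, one_mul]
  · intro a _
    simp [mul_assoc, h2]
  · intro a _
    simp [mul_assoc, h1]

/-- If `y ^ 2 = 0` then `(1 + y) ^ n = 1 + n y`. -/
theorem one_add_pow_sq {R : Type} [Ring R] {y : R} (hy : y * y = 0) (n : ℕ) :
    (1 + y) ^ n = 1 + n • y := by
  induction n with
  | zero => simp
  | succ n ih =>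
    rw [pow_succ, ih, succ_nsmul]
    have : n • y * y = 0 := by rw [smul_mul_assoc, hy, smul_zero]
    rw [add_mul, one_mul, mul_add, mul_one, this, add_zero]
    abel

variable {l : ℕ}

/-- Elements of `ZMod (l ^ j)` which are zero modulo `l ^ k`. -/
theorem dvd_of_cast {k j : ℕ} (hl : l.Prime) (h : l ^ k ∣ l ^ j) {a : ZMod (l ^ j)}
    (ha : ZMod.castHom h (ZMod (l ^ k)) a = 0) : ∃ b : ℕ, a = ((l ^ k * b : ℕ) : ZMod (l ^ j)) := by
  have : NeZero (l ^ j) := ⟨pow_ne_zero _ hl.ne_zero⟩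
  obtain ⟨n, rfl⟩ := ZMod.natCast_zmod_surjective a
  rw [map_natCast, ZMod.natCast_eq_zero_iff] at ha
  obtain ⟨b, rfl⟩ := ha
  exact ⟨b, rfl⟩

theorem e1 {k j : ℕ} (hl : l.Prime) (h : l ^ k ∣ l ^ j) (hkj : j ≤ 2 * k) {a b : ZMod (l ^ j)}
    (ha : ZMod.castHom h (ZMod (l ^ k)) a = 0) (hb : ZMod.castHom h (ZMod (l ^ k)) b = 0) :
    a * b = 0 := by
  obtain ⟨m, rfl⟩ := dvd_of_cast hl h ha
  obtain ⟨n, rfl⟩ := dvd_of_cast hl h hb
  rw [← Nat.cast_mul, ZMod.natCast_eq_zero_iff]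
  have h1 : l ^ j ∣ l ^ (k + k) := pow_dvd_pow l (by omega)
  refine h1.trans ⟨m * n, ?_⟩
  rw [pow_add]
  ring

theorem e2 {k j : ℕ} (hl : l.Prime) (h : l ^ k ∣ l ^ j) (h' : l ^ (k + 1) ∣ l ^ j)
    {a : ZMod (l ^ j)} (ha : ZMod.castHom h (ZMod (l ^ k)) a = 0) :
    ZMod.castHom h' (ZMod (l ^ (k + 1))) (l • a) = 0 := by
  obtain ⟨m, rfl⟩ := dvd_of_cast hl h ha
  rw [map_nsmul, map_natCast, nsmul_eq_mul, ← Nat.cast_mul, ZMod.natCast_eq_zero_iff]
  exact ⟨m, by rw [pow_succ]; ring⟩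

theorem e3 {k : ℕ} (hl : l.Prime) (h' : l ^ k ∣ l ^ (k + 1)) {a : ZMod (l ^ (k + 1))}
    (ha : l • a = 0) : ZMod.castHom h' (ZMod (l ^ k)) a = 0 := by
  have : NeZero (l ^ (k + 1)) := ⟨pow_ne_zero _ hl.ne_zero⟩
  obtain ⟨n, rfl⟩ := ZMod.natCast_zmod_surjective a
  rw [nsmul_eq_mul, ← Nat.cast_mul, ZMod.natCast_eq_zero_iff, pow_succ'] at ha
  rw [map_natCast, ZMod.natCast_eq_zero_iff]
  exact Nat.dvd_of_mul_dvd_mul_left hl.pos ha

/-- A bounded nondecreasing sequence of naturals is constant from some place on. -/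
theorem const_of_bdd {a : ℕ → ℕ} {B : ℕ} (h1 : ∀ k, 2 ≤ k → a k ≤ a (k + 1)) (h2 : ∀ k, a k ≤ B) :
    ∃ k₀, 2 ≤ k₀ ∧ ∀ k, k₀ ≤ k → a k = a k₀ := by
  have hmono : ∀ j k, 2 ≤ j → j ≤ k → a j ≤ a k := by
    intro j k hj hjk
    induction k, hjk using Nat.le_induction with
    | base => exact le_rfl
    | succ n hn ih => exact ih.trans (h1 n (hj.trans hn))
  have hfin : (a '' Set.Ici 2).Finite := (Set.finite_Iic B).subset (by
    rintro _ ⟨k, -, rfl⟩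
    exact h2 k)
  obtain ⟨m, ⟨k₀, hk₀, rfl⟩, hm⟩ := Set.exists_max_image (a '' Set.Ici 2) id hfin
    ⟨a 2, 2, Set.mem_Ici.mpr le_rfl, rfl⟩
  refine ⟨k₀, hk₀, fun k hk => le_antisymm ?_ (hmono k₀ k hk₀ hk)⟩
  exact hm (a k) ⟨k, Set.mem_Ici.mpr (le_trans (Set.mem_Ici.mp hk₀) hk), rfl⟩

end TNF.FR
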